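import Pool.Agent.R604.SC.Basic

set_option autoImplicit false

/-!
# Homogeneous sets of sum colourings
-/

open Finset
open scoped Pointwise

namespace Pool.Agent.R604.SC

variable {G : Type*} [AddCommGroup G] [DecidableEq G]

lemma pigeon {α : Type*} [DecidableEq α] {q : ℕ} (X : Finset α) (f : α → Fin q) (hq : 0 < q) :
    ∃ c, X.card ≤ q * (X.filter (fun x => f x = c)).card := by
  by_contra h
  push Not at h
  have h1 : X.card = ∑ c : Fin q, (X.filter (fun x => f x = c)).card :=
    Finset.card_eq_sum_card_fiberwise (fun _ _ => Finset.mem_coe.mpr (Finset.mem_univ _))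
  have h2 : q * X.card = ∑ c : Fin q, q * (X.filter (fun x => f x = c)).card := by
    rw [← Finset.mul_sum, ← h1]
  have h3 : ∑ c : Fin q, q * (X.filter (fun x => f x = c)).card < ∑ _c : Fin q, X.card := by
    apply Finset.sum_lt_sum_of_nonempty
    · exact ⟨⟨0, hq⟩, Finset.mem_univ _⟩
    · intro c _
      exact h c
  rw [← h2] at h3
  simp at h3

omit [DecidableEq G] in
lemma odd_smul (h2 : ∀ x : G, x + x = 0) (v : G) {k : ℕ} (hk : Odd k) : k • v = v := by
  obtain ⟨j, rfl⟩ := hk
  rw [add_smul, mul_comm, mul_smul, one_smul, two_smul, h2, smul_zero, zero_add]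

lemma core_nonempty {D : Finset G} {M d : ℕ} {H : Finset G} (hM : 1 ≤ M) (hD : D.Nonempty)
    (h : 2 * M * D.card ^ (2 ^ d) ≤ (2 * M) ^ (2 ^ d) * (core D H).card) : (core D H).Nonempty := by
  rw [← Finset.card_pos]
  rcases Nat.eq_zero_or_pos (core D H).card with h0 | h0
  · rw [h0, Nat.mul_zero] at h
    have : 0 < 2 * M * D.card ^ (2 ^ d) := by
      have := Finset.card_pos.mpr hD
      positivity
    omega
  · exact h0

lemma mem_core {D H : Finset G} {v : G} (hv : v ∈ core D H) {u : G} (hu : u ∈ ss H) :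
    v + u ∈ D := by
  unfold ss at hu
  obtain ⟨S, hS, rfl⟩ := Finset.mem_image.mp hu
  exact (Finset.mem_filter.mp hv).2 S (Finset.mem_powerset.mp hS)

/-- **Groups of exponent two.** -/
theorem two_torsion (h2 : ∀ x : G, x + x = 0) {V : Type*} [Fintype V] [DecidableEq V]
    {K q m n : ℕ} (hn : 1 ≤ n) (hK1 : 1 ≤ K) (hq : 1 ≤ q) (hm : 1 ≤ m) (g : V → G) (f : G → Fin q)
    (hK : (univ.image g - univ.image g).card ≤ K * Fintype.card V)
    (hfib : ∀ y, (univ.filter (fun x => g x = y)).card ≤ m)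
    (hN : (2 * K * q * m) ^ (2 * n) ≤ Fintype.card V) :
    ∃ A : Finset V, A.card = n ∧ ∃ c, ∀ S ⊆ A, Odd S.card → f (∑ x ∈ S, g x) = c := by
  set N := Fintype.card V with hNdef
  obtain ⟨d, hd1, hd2⟩ : ∃ d, n ≤ 2 ^ d ∧ 2 ^ d ≤ 2 * n := by
    refine ⟨Nat.clog 2 n, Nat.le_pow_clog (by norm_num) n, ?_⟩
    rcases Nat.lt_or_ge 1 n with h | h
    · have h3 := Nat.pow_pred_clog_lt_self (by norm_num : 1 < 2) h
      have h4 : 0 < Nat.clog 2 n := Nat.clog_pos (by norm_num) h
      obtain ⟨e, he⟩ : ∃ e, Nat.clog 2 n = e + 1 := ⟨Nat.clog 2 n - 1, by omega⟩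
      rw [he] at h3 ⊢
      simp only [Nat.pred_succ] at h3
      rw [pow_succ]; omega
    · have : n = 1 := by omega
      subst this
      simp
  set X : Finset G := univ.image g with hX
  have hXN : N ≤ m * X.card := by
    have := Finset.card_le_mul_card_image (f := g) (univ : Finset V) m (fun b _ => hfib b)
    simpa [hNdef] using this
  obtain ⟨c, hc⟩ := pigeon X f (by omega)
  set D := X.filter (fun x => f x = c) with hD
  have hND : N ≤ m * q * D.card := by
    calc N ≤ m * X.card := hXN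
      _ ≤ m * (q * D.card) := Nat.mul_le_mul_left _ hc
      _ = _ := by ring
  have hNpos : 1 ≤ N := le_trans (Nat.one_le_pow _ _ (by positivity)) hN
  have hDne : D.Nonempty := by
    rw [← Finset.card_pos]
    by_contra h0
    have : D.card = 0 := by omega
    rw [this] at hND; omega
  have hdiff : (D - D).card ≤ K * N := by
    refine le_trans (Finset.card_le_card ?_) hK
    exact Finset.sub_subset_sub (Finset.filter_subset _ _) (Finset.filter_subset _ _)
  have hMpos : 1 ≤ K * N := by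
    have := Nat.mul_le_mul hK1 hNpos
    simpa using this
  have hmain : (2 * (K * N)) ^ (2 ^ d) ≤ 2 * (K * N) * D.card ^ (2 ^ d) := by
    have hpos : 0 < (m * q) ^ (2 ^ d) := by positivity
    refine Nat.le_of_mul_le_mul_left ?_ hpos
    calc (m * q) ^ (2 ^ d) * (2 * (K * N)) ^ (2 ^ d)
        = (2 * K * q * m) ^ (2 ^ d) * N ^ (2 ^ d) := by
          rw [← mul_pow, ← mul_pow]; ring_nf
      _ ≤ N * N ^ (2 ^ d) := by
          apply Nat.mul_le_mul_right
          refine le_trans ?_ hN
          exact Nat.pow_le_pow_right (by positivity) hd2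
      _ ≤ (2 * (K * N)) * (m * q * D.card) ^ (2 ^ d) := by
          apply Nat.mul_le_mul
          · calc N = 1 * N := (one_mul _).symm
              _ ≤ (2 * K) * N := Nat.mul_le_mul_right _ (by omega)
              _ = _ := by ring
          · exact Nat.pow_le_pow_left hND _
      _ = (m * q) ^ (2 ^ d) * (2 * (K * N) * D.card ^ (2 ^ d)) := by
          rw [mul_pow (m * q) D.card]; ring
  obtain ⟨H, -, -, hss, hcore⟩ := cube D (K * N) d hdiff hDne hmain d le_rfl
  obtain ⟨v, hv⟩ := core_nonempty hMpos hDne hcore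
  have hch : ∀ u ∈ ss H, ∃ x : V, g x = v + u := by
    intro u hu
    have h3 := mem_core hv hu
    have h4 := (Finset.mem_filter.mp h3).1
    obtain ⟨x, -, hx⟩ := Finset.mem_image.mp h4
    exact ⟨x, hx⟩
  have : Nonempty V := Fintype.card_pos_iff.mp (by omega)
  choose! φ hφ using hch
  have hinj : Set.InjOn φ (ss H : Set G) := by
    intro a ha b hb hab
    have h3 := hφ a ha
    have h4 := hφ b hb
    rw [hab, h4] at h3
    exact (add_left_cancel h3).symm
  have hcard : ((ss H).image φ).card = 2 ^ d := by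
    rw [Finset.card_image_of_injOn hinj, hss h2]
  obtain ⟨A, hA, hAc⟩ := Finset.exists_subset_card_eq (hcard ▸ hd1 : n ≤ ((ss H).image φ).card)
  refine ⟨A, hAc, c, fun S hS hodd => ?_⟩
  have key : ∑ x ∈ S, g x = v + ∑ x ∈ S, (v + g x) := by
    rw [Finset.sum_add_distrib, Finset.sum_const, odd_smul h2 v hodd, ← add_assoc, h2, zero_add]
  have hin : ∑ x ∈ S, (v + g x) ∈ ss H := by
    refine Finset.sum_induction _ (fun y => y ∈ ss H) (fun a b ha hb => ss_add h2 ha hb)
      (zero_mem_ss H) ?_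
    intro x hx
    obtain ⟨u, hu, rfl⟩ := Finset.mem_image.mp (hA (hS hx))
    rw [hφ u hu, ← add_assoc, h2, zero_add]
    exact hu
  rw [key]
  exact (Finset.mem_filter.mp (mem_core hv hin)).2

/-- arbitrary maps into a group of exponent two -/
theorem two_torsion' (h2 : ∀ x : G, x + x = 0) {V : Type*} [Fintype V] [DecidableEq V]
    {K q n : ℕ} (hn : 1 ≤ n) (hK1 : 1 ≤ K) (hq : 1 ≤ q) (g : V → G) (f : G → Fin q)
    (hK : (univ.image g - univ.image g).card ≤ K * Fintype.card V)
    (hN : (2 * K * q * n) ^ (2 * n) ≤ Fintype.card V) :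
    ∃ A : Finset V, A.card = n ∧ ∃ c, ∀ S ⊆ A, Odd S.card → f (∑ x ∈ S, g x) = c := by
  by_cases h : ∀ y, (univ.filter (fun x => g x = y)).card ≤ n
  · exact two_torsion h2 hn hK1 hq hn g f hK h hN
  · push Not at h
    obtain ⟨y, hy⟩ := h
    obtain ⟨A, hA, hAc⟩ := Finset.exists_subset_card_eq hy.le
    refine ⟨A, hAc, f y, fun S hS hodd => ?_⟩
    have : ∑ x ∈ S, g x = ∑ x ∈ S, y := by
      apply Finset.sum_congr rfl
      intro x hx
      exact (Finset.mem_filter.mp (hA (hS hx))).2
    rw [this, Finset.sum_const, odd_smul h2 y hodd]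

/-- subset sums of a translated dilated set -/
lemma sum_dil {r : ℕ} (hr : Function.Injective (fun x : G => r • x)) (v : G) (H T : Finset G)
    (hT : T ⊆ H.image (fun h => v + r • h)) (hTc : T.card = r) :
    ∃ S ⊆ H, ∑ x ∈ T, x = r • (v + ∑ x ∈ S, x) := by
  have hinj : Function.Injective (fun h : G => v + r • h) :=
    fun a b hab => hr (add_left_cancel hab)
  refine ⟨H.filter (fun h => v + r • h ∈ T), Finset.filter_subset _ _, ?_⟩
  have e : T = (H.filter (fun h => v + r • h ∈ T)).image (fun h => v + r • h) := by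
    ext y
    constructor
    · intro hy
      obtain ⟨h, hh, rfl⟩ := Finset.mem_image.mp (hT hy)
      exact Finset.mem_image.mpr ⟨h, Finset.mem_filter.mpr ⟨hh, hy⟩, rfl⟩
    · intro hy
      obtain ⟨h, hh, rfl⟩ := Finset.mem_image.mp hy
      exact (Finset.mem_filter.mp hh).2
  have e2 : (H.filter (fun h => v + r • h ∈ T)).card = r := by
    have e3 := congrArg Finset.card e
    rw [Finset.card_image_of_injective _ hinj, hTc] at e3
    exact e3.symm
  conv_lhs => rw [e]
  rw [Finset.sum_image (fun a _ b _ hab => hinj hab), Finset.sum_add_distrib, Finset.sum_const, e2,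
    ← Finset.smul_sum, smul_add]

/-- **Finite abelian groups of order prime to `r`.** -/
theorem coprime_group [Fintype G] {q n r : ℕ} (hq : 1 ≤ q) (hr : (Fintype.card G).Coprime r)
    (f : G → Fin q) (hN : (2 * q) ^ (2 ^ n) ≤ Fintype.card G) :
    ∃ A : Finset G, A.card = n ∧ ∃ c, ∀ S ⊆ A, S.card = r → f (∑ x ∈ S, x) = c := by
  set N := Fintype.card G with hNdef
  have hinj : Function.Injective (fun x : G => r • x) := by
    have := (nsmulCoprime (G := G) (n := r) (by rw [Nat.card_eq_fintype_card]; exact hr)).injective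
    exact this
  obtain ⟨c, hc⟩ := pigeon (univ : Finset G) (fun y => f (r • y)) (by omega)
  set D := (univ : Finset G).filter (fun y => f (r • y) = c) with hD
  have hND : N ≤ q * D.card := by simpa [hNdef] using hc
  have hNpos : 1 ≤ N := le_trans (Nat.one_le_pow _ _ (by positivity)) hN
  have hDne : D.Nonempty := by
    rw [← Finset.card_pos]
    by_contra h0
    have : D.card = 0 := by omega
    rw [this] at hND; omega
  have hdiff : (D - D).card ≤ N := Finset.card_le_univ _
  have hmain : (2 * N) ^ (2 ^ n) ≤ 2 * N * D.card ^ (2 ^ n) := by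
    have hpos : 0 < q ^ (2 ^ n) := by positivity
    refine Nat.le_of_mul_le_mul_left ?_ hpos
    calc q ^ (2 ^ n) * (2 * N) ^ (2 ^ n) = (2 * q) ^ (2 ^ n) * N ^ (2 ^ n) := by
          rw [← mul_pow, ← mul_pow]; ring_nf
      _ ≤ N * N ^ (2 ^ n) := Nat.mul_le_mul_right _ hN
      _ ≤ (2 * N) * (q * D.card) ^ (2 ^ n) := by
          apply Nat.mul_le_mul (by omega)
          exact Nat.pow_le_pow_left hND _
      _ = q ^ (2 ^ n) * (2 * N * D.card ^ (2 ^ n)) := by
          rw [mul_pow q D.card]; ring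
  obtain ⟨H, hHc, -, -, hcore⟩ := cube D N n hdiff hDne hmain n le_rfl
  obtain ⟨v, hv⟩ := core_nonempty hNpos hDne hcore
  refine ⟨H.image (fun h => v + r • h), ?_, c, fun T hT hTc => ?_⟩
  · rw [Finset.card_image_of_injective _ (fun a b hab => hinj (add_left_cancel hab)), hHc]
  · obtain ⟨S, hS, e⟩ := sum_dil hinj v H T hT hTc
    rw [e]
    have h3 : v + ∑ x ∈ S, x ∈ D := (Finset.mem_filter.mp hv).2 S hS
    exact (Finset.mem_filter.mp h3).2

/-- **Integers.** -/
theorem integers {q n r N : ℕ} (hq : 1 ≤ q) (hr : 1 ≤ r) (f : ℤ → Fin q)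
    (hN : (2 * r + 1) * (4 * q) ^ (2 ^ n) ≤ N) :
    ∃ A ⊆ Finset.Ico (0 : ℤ) N, A.card = n ∧ ∃ c, ∀ S ⊆ A, S.card = r → f (∑ x ∈ S, x) = c := by
  set N' := (4 * q) ^ (2 ^ n) with hN'
  have hN'pos : 1 ≤ N' := Nat.one_le_pow _ _ (by positivity)
  have hinj : Function.Injective (fun x : ℤ => r • x) := by
    intro a b hab
    simp only [nsmul_eq_mul] at hab
    have : (r : ℤ) ≠ 0 := by exact_mod_cast (by omega : r ≠ 0)
    exact mul_left_cancel₀ this hab
  obtain ⟨c, hc⟩ := pigeon (Finset.Ico ((r * N' : ℕ) : ℤ) ((r * N' : ℕ) + N')) (fun y => f (r • y))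
    (by omega)
  set D := (Finset.Ico ((r * N' : ℕ) : ℤ) ((r * N' : ℕ) + N')).filter (fun y => f (r • y) = c)
    with hD
  have hND : N' ≤ q * D.card := by
    have e : (Finset.Ico ((r * N' : ℕ) : ℤ) ((r * N' : ℕ) + N')).card = N' := by
      rw [Int.card_Ico]; simp
    rw [e] at hc; exact hc
  have hDne : D.Nonempty := by
    rw [← Finset.card_pos]
    by_contra h0
    have : D.card = 0 := by omega
    rw [this] at hND; omega
  have hmemD : ∀ y ∈ D, ((r * N' : ℕ) : ℤ) ≤ y ∧ y < (r * N' : ℕ) + N' := by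
    intro y hy
    exact Finset.mem_Ico.mp (Finset.mem_filter.mp hy).1
  have hdiff : (D - D).card ≤ 2 * N' := by
    have hsub : D - D ⊆ Finset.Ico (-(N' : ℤ)) N' := by
      intro z hz
      obtain ⟨a, ha, b, hb, rfl⟩ := Finset.mem_sub.mp hz
      have h1 := hmemD a ha
      have h2 := hmemD b hb
      rw [Finset.mem_Ico]
      constructor <;> linarith [h1.1, h1.2, h2.1, h2.2]
    refine (Finset.card_le_card hsub).trans ?_
    rw [Int.card_Ico]
    omega
  have hmain : (2 * (2 * N')) ^ (2 ^ n) ≤ 2 * (2 * N') * D.card ^ (2 ^ n) := by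
    have hpos : 0 < q ^ (2 ^ n) := by positivity
    refine Nat.le_of_mul_le_mul_left ?_ hpos
    calc q ^ (2 ^ n) * (2 * (2 * N')) ^ (2 ^ n) = (4 * q) ^ (2 ^ n) * N' ^ (2 ^ n) := by
          rw [← mul_pow, ← mul_pow]; ring_nf
      _ = N' * N' ^ (2 ^ n) := rfl
      _ ≤ (2 * (2 * N')) * (q * D.card) ^ (2 ^ n) := by
          apply Nat.mul_le_mul (by omega)
          exact Nat.pow_le_pow_left hND _
      _ = q ^ (2 ^ n) * (2 * (2 * N') * D.card ^ (2 ^ n)) := by
          rw [mul_pow q D.card]; ring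
  obtain ⟨H, hHc, -, -, hcore⟩ := cube D (2 * N') n hdiff hDne hmain n le_rfl
  obtain ⟨v, hv⟩ := core_nonempty (by omega) hDne hcore
  refine ⟨H.image (fun h => v + r • h), ?_, ?_, c, fun T hT hTc => ?_⟩
  · intro y hy
    obtain ⟨h, hh, rfl⟩ := Finset.mem_image.mp hy
    have h1 := hmemD _ (core_sub D H hv)
    have h2 := hmemD _ (mem_core hv (self_mem_ss hh))
    have h3 : -(N' : ℤ) < h := by linarith [h1.1, h1.2, h2.1, h2.2]
    have h4 : h < (N' : ℤ) := by linarith [h1.1, h1.2, h2.1, h2.2]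
    have hr' : (1 : ℤ) ≤ r := by exact_mod_cast hr
    rw [Finset.mem_Ico]
    have e : r • h = (r : ℤ) * h := by simp
    have hNN : (((2 * r + 1) * N' : ℕ) : ℤ) ≤ N := by exact_mod_cast hN
    push_cast at h1 h2 hNN ⊢
    rw [e]
    constructor
    · nlinarith [h1.1]
    · nlinarith [h1.2]
  · rw [Finset.card_image_of_injective _ (fun a b hab => hinj (add_left_cancel hab)), hHc]
  · obtain ⟨S, hS, e⟩ := sum_dil hinj v H T hT hTc
    rw [e]
    have h3 : v + ∑ x ∈ S, x ∈ D := (Finset.mem_filter.mp hv).2 S hS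
    exact (Finset.mem_filter.mp h3).2

end Pool.Agent.R604.SC
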