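import Mathlib

set_option autoImplicit false

/-!
# Cubes in sets with few differences
-/

open Finset
open scoped Pointwise

namespace Pool.Agent.R604.SC

variable {G : Type*} [AddCommGroup G] [DecidableEq G]

/-- the points `x ∈ D` with `x + h ∈ D` -/
def sh (D : Finset G) (h : G) : Finset G := D.filter (fun x => x + h ∈ D)

lemma sum_sh (D : Finset G) : ∑ h ∈ D - D, (sh D h).card = D.card ^ 2 := by
  have h1 : (D ×ˢ D).card = ∑ h ∈ D - D, ((D ×ˢ D).filter (fun p => p.2 - p.1 = h)).card := by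
    apply Finset.card_eq_sum_card_fiberwise
    intro p hp
    have hp' := Finset.mem_product.mp hp
    exact Finset.sub_mem_sub hp'.2 hp'.1
  rw [Finset.card_product, ← sq] at h1
  rw [h1]
  refine Finset.sum_congr rfl fun h _ => ?_
  refine Finset.card_bij (fun x _ => (x, x + h)) ?_ ?_ ?_
  · intro x hx
    have := Finset.mem_filter.mp hx
    simp [this.1, this.2]
  · intro x _ y _ hxy
    exact (Prod.mk.inj hxy).1
  · intro p hp
    obtain ⟨hp1, hp2⟩ := Finset.mem_filter.mp hp
    obtain ⟨h3, h4⟩ := Finset.mem_product.mp hp1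
    refine ⟨p.1, ?_, ?_⟩
    · refine Finset.mem_filter.mpr ⟨h3, ?_⟩
      rw [← hp2]; simpa using h4
    · ext
      · rfl
      · simp only; rw [← hp2]; abel

/-- one doubling step -/
lemma step (D B : Finset G) (M : ℕ) (hM : (D - D).card ≤ M) (hD : D.Nonempty)
    (hB : 2 * B.card ≤ D.card) : ∃ h, h ∉ B ∧ D.card ^ 2 ≤ 2 * M * (sh D h).card := by
  by_contra hcon
  push Not at hcon
  have hM1 : 1 ≤ M := by
    refine le_trans ?_ hM
    exact Finset.card_pos.mpr (Finset.Nonempty.sub hD hD)
  have h1 := sum_sh D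
  have h2 : ∑ h ∈ D - D, (sh D h).card
      = ∑ h ∈ (D - D).filter (· ∈ B), (sh D h).card
        + ∑ h ∈ (D - D).filter (· ∉ B), (sh D h).card :=
    (Finset.sum_filter_add_sum_filter_not _ _ _).symm
  have h3 : ∑ h ∈ (D - D).filter (· ∈ B), (sh D h).card ≤ B.card * D.card := by
    calc ∑ h ∈ (D - D).filter (· ∈ B), (sh D h).card
        ≤ ∑ h ∈ (D - D).filter (· ∈ B), D.card :=
          Finset.sum_le_sum fun h _ => Finset.card_filter_le _ _
      _ = ((D - D).filter (· ∈ B)).card * D.card := by simp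
      _ ≤ B.card * D.card := by
          apply Nat.mul_le_mul_right
          apply Finset.card_le_card
          intro x hx
          exact (Finset.mem_filter.mp hx).2
  have h4 : 2 * M * ∑ h ∈ (D - D).filter (· ∉ B), (sh D h).card ≤ M * (D.card ^ 2 - 1) := by
    rw [Finset.mul_sum]
    calc ∑ h ∈ (D - D).filter (· ∉ B), 2 * M * (sh D h).card
        ≤ ∑ h ∈ (D - D).filter (· ∉ B), (D.card ^ 2 - 1) := by
          apply Finset.sum_le_sum
          intro h hh
          have := hcon h (Finset.mem_filter.mp hh).2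
          omega
      _ = ((D - D).filter (· ∉ B)).card * (D.card ^ 2 - 1) := by simp
      _ ≤ M * (D.card ^ 2 - 1) := by
          apply Nat.mul_le_mul_right
          exact (Finset.card_filter_le _ _).trans hM
  have hDpos : 1 ≤ D.card := Finset.card_pos.mpr hD
  have hD2 : 1 ≤ D.card ^ 2 := Nat.one_le_pow _ _ hDpos
  -- combine
  have h5 : 2 * M * D.card ^ 2 ≤ 2 * M * (B.card * D.card) + M * (D.card ^ 2 - 1) := by
    rw [h1] at h2
    calc 2 * M * D.card ^ 2 = 2 * M * (∑ h ∈ (D - D).filter (· ∈ B), (sh D h).card)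
          + 2 * M * (∑ h ∈ (D - D).filter (· ∉ B), (sh D h).card) := by
          rw [← Nat.mul_add, ← h2]
      _ ≤ _ := Nat.add_le_add (Nat.mul_le_mul_left _ h3) h4
  obtain ⟨e, he⟩ : ∃ e, D.card ^ 2 = e + 1 := ⟨D.card ^ 2 - 1, by omega⟩
  have h6 : 2 * (B.card * D.card) ≤ D.card ^ 2 := by
    calc 2 * (B.card * D.card) = (2 * B.card) * D.card := by ring
      _ ≤ D.card * D.card := Nat.mul_le_mul_right _ hB
      _ = D.card ^ 2 := by ring
  rw [he] at h5 h6
  simp only [Nat.add_sub_cancel] at h5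
  nlinarith

/-- the points `v` of `D` all of whose translates by subset sums of `H` are in `D` -/
def core (D H : Finset G) : Finset G := D.filter (fun v => ∀ S ⊆ H, v + ∑ x ∈ S, x ∈ D)

/-- subset sums -/
def ss (H : Finset G) : Finset G := H.powerset.image (fun S => ∑ x ∈ S, x)

lemma card_ss_le (H : Finset G) : (ss H).card ≤ 2 ^ H.card := by
  unfold ss
  exact Finset.card_image_le.trans (by simp)

lemma zero_mem_ss (H : Finset G) : (0 : G) ∈ ss H := by
  unfold ss
  exact Finset.mem_image.mpr ⟨∅, by simp, by simp⟩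

lemma self_mem_ss {H : Finset G} {h : G} (hh : h ∈ H) : h ∈ ss H := by
  unfold ss
  exact Finset.mem_image.mpr ⟨{h}, by simpa using hh, by simp⟩

lemma core_insert (D H : Finset G) (h : G) (hh : h ∉ H) :
    core D (insert h H) = sh (core D H) h := by
  ext v
  unfold sh core
  simp only [Finset.mem_filter]
  constructor
  · rintro ⟨hv, hS⟩
    refine ⟨⟨hv, fun S hSH => hS S (hSH.trans (Finset.subset_insert _ _))⟩, ?_, ?_⟩
    · have := hS {h} (by simp)
      simpa using this
    · intro S hSH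
      have hhS : h ∉ S := fun hc => hh (hSH hc)
      have := hS (insert h S) (Finset.insert_subset_insert _ hSH)
      rw [Finset.sum_insert hhS] at this
      rwa [add_assoc]
  · rintro ⟨⟨hv, hS⟩, hv', hS'⟩
    refine ⟨hv, fun S hSH => ?_⟩
    by_cases hhS : h ∈ S
    · have h1 := hS' (S.erase h) (by
        intro x hx
        have := Finset.mem_erase.mp hx
        rcases Finset.mem_insert.mp (hSH this.2) with h2 | h2
        · exact absurd h2 this.1
        · exact h2)
      rw [add_assoc, Finset.add_sum_erase S (fun x => x) hhS] at h1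
      exact h1
    · exact hS S (by
        intro x hx
        rcases Finset.mem_insert.mp (hSH hx) with h2 | h2
        · exact absurd (h2 ▸ hx) hhS
        · exact h2)

lemma core_sub (D H : Finset G) : core D H ⊆ D := Finset.filter_subset _ _

lemma sum_symmDiff (h2 : ∀ x : G, x + x = 0) (S T : Finset G) :
    ∑ x ∈ S, x + ∑ x ∈ T, x = ∑ x ∈ symmDiff S T, x := by
  have e1 : ∑ x ∈ S, x = ∑ x ∈ S \ T, x + ∑ x ∈ S ∩ T, x := by
    rw [add_comm]; exact (Finset.sum_inter_add_sum_sdiff S T (fun x => x)).symm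
  have e2 : ∑ x ∈ T, x = ∑ x ∈ T \ S, x + ∑ x ∈ S ∩ T, x := by
    rw [add_comm, Finset.inter_comm]; exact (Finset.sum_inter_add_sum_sdiff T S (fun x => x)).symm
  have e3 : ∑ x ∈ symmDiff S T, x = ∑ x ∈ S \ T, x + ∑ x ∈ T \ S, x := by
    rw [show symmDiff S T = (S \ T) ∪ (T \ S) from rfl]
    rw [Finset.sum_union]
    exact disjoint_sdiff_sdiff
  rw [e1, e2, e3]
  have := h2 (∑ x ∈ S ∩ T, x)
  calc _ = (∑ x ∈ S \ T, x + ∑ x ∈ T \ S, x) + (∑ x ∈ S ∩ T, x + ∑ x ∈ S ∩ T, x) := by abel
    _ = _ := by rw [this, add_zero]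

lemma ss_add (h2 : ∀ x : G, x + x = 0) {H : Finset G} {a b : G} (ha : a ∈ ss H) (hb : b ∈ ss H) :
    a + b ∈ ss H := by
  unfold ss at *
  obtain ⟨S, hS, rfl⟩ := Finset.mem_image.mp ha
  obtain ⟨T, hT, rfl⟩ := Finset.mem_image.mp hb
  refine Finset.mem_image.mpr ⟨symmDiff S T, ?_, ?_⟩
  · rw [Finset.mem_powerset] at *
    intro x hx
    rcases Finset.mem_symmDiff.mp hx with h | h
    · exact hS h.1
    · exact hT h.1
  · exact (sum_symmDiff h2 S T).symm

/-- subset sums of an enlarged set in a group of exponent two -/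
lemma card_ss_insert (h2 : ∀ x : G, x + x = 0) (H : Finset G) (h : G) (hh : h ∉ ss H) :
    (ss (insert h H)).card = 2 * (ss H).card := by
  have hhH : h ∉ H := fun hc => hh (self_mem_ss hc)
  have e : ss (insert h H) = ss H ∪ (ss H).image (fun x => h + x) := by
    ext y
    constructor
    · intro hy
      unfold ss at hy
      obtain ⟨S, hS, rfl⟩ := Finset.mem_image.mp hy
      rw [Finset.mem_powerset] at hS
      by_cases hhS : h ∈ S
      · refine Finset.mem_union_right _ (Finset.mem_image.mpr ⟨∑ x ∈ S.erase h, x, ?_, ?_⟩)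
        · unfold ss
          refine Finset.mem_image.mpr ⟨S.erase h, ?_, rfl⟩
          rw [Finset.mem_powerset]
          intro x hx
          have := Finset.mem_erase.mp hx
          rcases Finset.mem_insert.mp (hS this.2) with h2 | h2
          · exact absurd h2 this.1
          · exact h2
        · exact Finset.add_sum_erase S (fun x => x) hhS
      · refine Finset.mem_union_left _ ?_
        unfold ss
        refine Finset.mem_image.mpr ⟨S, ?_, rfl⟩
        rw [Finset.mem_powerset]
        intro x hx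
        rcases Finset.mem_insert.mp (hS hx) with h2 | h2
        · exact absurd (h2 ▸ hx) hhS
        · exact h2
    · intro hy
      rcases Finset.mem_union.mp hy with hy | hy
      · unfold ss at *
        obtain ⟨S, hS, rfl⟩ := Finset.mem_image.mp hy
        rw [Finset.mem_powerset] at hS
        exact Finset.mem_image.mpr ⟨S, by
          rw [Finset.mem_powerset]; exact hS.trans (Finset.subset_insert _ _), rfl⟩
      · obtain ⟨z, hz, rfl⟩ := Finset.mem_image.mp hy
        unfold ss at *
        obtain ⟨S, hS, rfl⟩ := Finset.mem_image.mp hz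
        rw [Finset.mem_powerset] at hS
        refine Finset.mem_image.mpr ⟨insert h S, ?_, ?_⟩
        · rw [Finset.mem_powerset]; exact Finset.insert_subset_insert _ hS
        · rw [Finset.sum_insert (fun hc => hhH (hS hc))]
  rw [e, Finset.card_union_of_disjoint, Finset.card_image_of_injective _ (add_right_injective h)]
  · ring
  · rw [Finset.disjoint_left]
    intro y hy hy'
    obtain ⟨z, hz, rfl⟩ := Finset.mem_image.mp hy'
    apply hh
    have := ss_add h2 hy hz
    have e2 : h + z + z = h := by rw [add_assoc, h2, add_zero]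
    rwa [e2] at this

/-- **Cubes.** If `|D| ^ (2 ^ d)` is at least `(2 M) ^ (2 ^ d - 1)`, where `M` bounds the number of
differences, then some translate of a cube of dimension `d` is contained in `D`. -/
theorem cube (D : Finset G) (M d : ℕ) (hM : (D - D).card ≤ M) (hD : D.Nonempty)
    (hd : (2 * M) ^ (2 ^ d) ≤ 2 * M * D.card ^ (2 ^ d)) :
    ∀ i ≤ d, ∃ H : Finset G, H.card = i ∧ (0 : G) ∉ H ∧
      ((∀ x : G, x + x = 0) → (ss H).card = 2 ^ i) ∧
      2 * M * D.card ^ (2 ^ i) ≤ (2 * M) ^ (2 ^ i) * (core D H).card := by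
  intro i
  induction i with
  | zero =>
    intro _
    refine ⟨∅, rfl, by simp, fun _ => by simp [ss], ?_⟩
    have : core D ∅ = D := by
      ext v
      unfold core
      simp only [Finset.mem_filter, Finset.subset_empty]
      constructor
      · exact fun h => h.1
      · intro h
        exact ⟨h, fun S hS => by subst hS; simpa using h⟩
    rw [this]
    simp
  | succ i ih =>
    intro hi
    obtain ⟨H, hc, h0, hss, hcore⟩ := ih (by omega)
    have hM1 : 1 ≤ M := by
      refine le_trans ?_ hM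
      exact Finset.card_pos.mpr (Finset.Nonempty.sub hD hD)
    have hDM : D.card ≤ M := by
      refine le_trans ?_ hM
      obtain ⟨x, hx⟩ := hD
      calc D.card = (D.image (fun y => y - x)).card :=
            (Finset.card_image_of_injective _ (sub_left_injective)).symm
        _ ≤ (D - D).card := by
            apply Finset.card_le_card
            intro z hz
            obtain ⟨y, hy, rfl⟩ := Finset.mem_image.mp hz
            exact Finset.sub_mem_sub hy hx
    have hDpos : 1 ≤ D.card := Finset.card_pos.mpr hD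
    -- real quantities
    set x : ℝ := (D.card : ℝ) / (2 * M) with hx
    have hMR : (1 : ℝ) ≤ M := by exact_mod_cast hM1
    have hx0 : 0 < x := by
      rw [hx]; have : (0 : ℝ) < D.card := by exact_mod_cast hDpos
      positivity
    have hx1 : x ≤ 1 / 2 := by
      rw [hx, div_le_iff₀ (by positivity)]
      have : (D.card : ℝ) ≤ M := by exact_mod_cast hDM
      linarith
    have hDx : (D.card : ℝ) = 2 * M * x := by rw [hx]; field_simp
    have hd' : (1 : ℝ) ≤ 2 * M * x ^ (2 ^ d) := by
      have h : ((2 * (M : ℝ)) ^ (2 ^ d)) ≤ 2 * M * (D.card : ℝ) ^ (2 ^ d) := by exact_mod_cast hd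
      rw [hDx, mul_pow (2 * (M : ℝ)) x] at h
      have hp : (0 : ℝ) < (2 * (M : ℝ)) ^ (2 ^ d) := by positivity
      by_contra hlt
      push Not at hlt
      have : 2 * (M : ℝ) * ((2 * M) ^ 2 ^ d * x ^ 2 ^ d) < (2 * (M : ℝ)) ^ (2 ^ d) := by
        calc 2 * (M : ℝ) * ((2 * M) ^ 2 ^ d * x ^ 2 ^ d)
            = (2 * (M : ℝ)) ^ (2 ^ d) * (2 * M * x ^ (2 ^ d)) := by ring
          _ < (2 * (M : ℝ)) ^ (2 ^ d) * 1 := mul_lt_mul_of_pos_left hlt hp
          _ = _ := by ring
      linarith
    have ha : 2 * M * x ^ (2 ^ i) ≤ ((core D H).card : ℝ) := by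
      have h : 2 * (M : ℝ) * (D.card : ℝ) ^ (2 ^ i) ≤ (2 * (M : ℝ)) ^ (2 ^ i) * (core D H).card := by
        exact_mod_cast hcore
      rw [hDx, mul_pow (2 * (M : ℝ)) x] at h
      have hp : (0 : ℝ) < (2 * (M : ℝ)) ^ (2 ^ i) := by positivity
      have h' : (2 * (M : ℝ)) ^ (2 ^ i) * (2 * M * x ^ (2 ^ i))
          ≤ (2 * (M : ℝ)) ^ (2 ^ i) * (core D H).card := by
        calc (2 * (M : ℝ)) ^ (2 ^ i) * (2 * M * x ^ (2 ^ i))
            = 2 * M * ((2 * (M : ℝ)) ^ (2 ^ i) * x ^ (2 ^ i)) := by ring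
          _ ≤ _ := h
      exact le_of_mul_le_mul_left h' hp
    have hM2 : (2 : ℝ) ^ (2 ^ d) ≤ 2 * M := by
      have h1 : x ^ (2 ^ d) ≤ (1 / 2) ^ (2 ^ d) := pow_le_pow_left₀ hx0.le hx1 _
      have h2 : (1 : ℝ) ≤ 2 * M * (1 / 2) ^ (2 ^ d) :=
        hd'.trans (mul_le_mul_of_nonneg_left h1 (by positivity))
      rw [one_div, inv_pow] at h2
      have hp : (0 : ℝ) < 2 ^ (2 ^ d) := by positivity
      rwa [← div_eq_mul_inv, le_div_iff₀ hp, one_mul] at h2
    have ha2 : (2 : ℝ) * M ≤ ((core D H).card : ℝ) ^ 2 := by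
      have h1 : (2 * M * x ^ (2 ^ i)) ^ 2 ≤ ((core D H).card : ℝ) ^ 2 :=
        pow_le_pow_left₀ (mul_nonneg (by linarith) (pow_nonneg hx0.le _)) ha 2
      have h2 : x ^ (2 ^ d) ≤ x ^ (2 ^ i * 2) := by
        apply pow_le_pow_of_le_one hx0.le (by linarith)
        rw [← pow_succ]
        exact Nat.pow_le_pow_right (by norm_num) hi
      calc (2 : ℝ) * M = 2 * M * 1 := by ring
        _ ≤ 2 * M * (2 * M * x ^ (2 ^ d)) := mul_le_mul_of_nonneg_left hd' (by positivity)
        _ ≤ 2 * M * (2 * M * x ^ (2 ^ i * 2)) := by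
            apply mul_le_mul_of_nonneg_left _ (by positivity)
            exact mul_le_mul_of_nonneg_left h2 (by positivity)
        _ = (2 * M * x ^ (2 ^ i)) ^ 2 := by rw [pow_mul]; ring
        _ ≤ _ := h1
    have hbig : 2 * (ss H).card ≤ (core D H).card := by
      have h1 : (2 * (ss H).card : ℕ) ≤ 2 ^ (i + 1) := by
        have := card_ss_le H
        rw [hc] at this
        rw [pow_succ]; omega
      refine h1.trans ?_
      have h2 : ((2 : ℝ) ^ (i + 1)) ^ 2 ≤ ((core D H).card : ℝ) ^ 2 := by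
        refine le_trans ?_ (hM2.trans ha2)
        rw [← pow_mul]
        apply pow_le_pow_right₀ (by norm_num)
        have h3 : i + 1 ≤ 2 ^ i := Nat.lt_two_pow_self
        calc (i + 1) * 2 ≤ 2 ^ i * 2 := Nat.mul_le_mul_right _ h3
          _ = 2 ^ (i + 1) := (pow_succ 2 i).symm
          _ ≤ 2 ^ d := Nat.pow_le_pow_right (by norm_num) hi
      have h4 : ((2 : ℝ) ^ (i + 1)) ≤ ((core D H).card : ℝ) :=
        (pow_le_pow_iff_left₀ (pow_nonneg (by norm_num) _) (Nat.cast_nonneg _) (by norm_num)).mp h2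
      exact_mod_cast h4
    have hcne : (core D H).Nonempty := by
      rw [← Finset.card_pos]
      have : 1 ≤ (ss H).card := Finset.card_pos.mpr ⟨0, zero_mem_ss H⟩
      omega
    have hdiff : (core D H - core D H).card ≤ M :=
      (Finset.card_le_card (Finset.sub_subset_sub (core_sub D H) (core_sub D H))).trans hM
    obtain ⟨h, hhB, hstep⟩ := step (core D H) (ss H) M hdiff hcne hbig
    have hhH : h ∉ H := fun hc => hhB (self_mem_ss hc)
    refine ⟨insert h H, ?_, ?_, ?_, ?_⟩
    · rw [Finset.card_insert_of_notMem hhH, hc]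
    · intro hc
      rcases Finset.mem_insert.mp hc with h' | h'
      · exact hhB (h' ▸ zero_mem_ss H)
      · exact h0 h'
    · intro h2
      rw [card_ss_insert h2 H h hhB, hss h2, pow_succ]; ring
    · rw [core_insert D H h hhH]
      set a := (core D H).card
      set b := (sh (core D H) h).card
      -- from 2M D^(2^i) ≤ (2M)^(2^i) a and a^2 ≤ 2M b
      have e1 : D.card ^ (2 ^ (i + 1)) = (D.card ^ (2 ^ i)) ^ 2 := by rw [pow_succ, pow_mul]
      have e2 : (2 * M) ^ (2 ^ (i + 1)) = ((2 * M) ^ (2 ^ i)) ^ 2 := by rw [pow_succ, pow_mul]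
      rw [e1, e2]
      have h5 : (2 * M * D.card ^ (2 ^ i)) ^ 2 ≤ ((2 * M) ^ (2 ^ i) * a) ^ 2 :=
        Nat.pow_le_pow_left hcore 2
      have h6 : 2 * M * (2 * M * (D.card ^ (2 ^ i)) ^ 2)
          ≤ 2 * M * (((2 * M) ^ (2 ^ i)) ^ 2 * b) := by
        calc 2 * M * (2 * M * (D.card ^ (2 ^ i)) ^ 2) = (2 * M * D.card ^ (2 ^ i)) ^ 2 := by ring
          _ ≤ ((2 * M) ^ (2 ^ i) * a) ^ 2 := h5
          _ = ((2 * M) ^ (2 ^ i)) ^ 2 * a ^ 2 := by ring
          _ ≤ ((2 * M) ^ (2 ^ i)) ^ 2 * (2 * M * b) := Nat.mul_le_mul_left _ hstep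
          _ = 2 * M * (((2 * M) ^ (2 ^ i)) ^ 2 * b) := by ring
      exact Nat.le_of_mul_le_mul_left h6 (by omega)

end Pool.Agent.R604.SC
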