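import Mathlib

set_option autoImplicit false

/-!
# Sum colourings without large homogeneous sets
-/

open Finset

namespace Pool.Agent.R604.SC

lemma card_const {W : Type*} [Fintype W] [DecidableEq W] (E : Finset W) (c : Fin 2) :
    (univ.filter (fun f : W → Fin 2 => ∀ e ∈ E, f e = c)).card = 2 ^ (Fintype.card W - E.card) := by
  have h1 : (univ.filter (fun f : W → Fin 2 => ∀ e ∈ E, f e = c))
      = Fintype.piFinset (fun e => if e ∈ E then ({c} : Finset (Fin 2)) else univ) := by
    ext f
    simp only [Finset.mem_filter, Finset.mem_univ, true_and, Fintype.mem_piFinset]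
    constructor
    · intro h e
      by_cases he : e ∈ E
      · simp [he, h e he]
      · simp [he]
    · intro h e he
      have := h e
      simpa [he] using this
  rw [h1, Fintype.card_piFinset]
  have h2 : ∀ e : W, (if e ∈ E then ({c} : Finset (Fin 2)) else univ).card
      = if e ∈ E then 1 else 2 := by
    intro e
    by_cases he : e ∈ E <;> simp [he]
  rw [Finset.prod_congr rfl (fun e _ => h2 e), Finset.prod_ite]
  simp only [Finset.prod_const_one, one_mul, Finset.prod_const]
  congr 1
  have h3 := Finset.card_filter_add_card_filter_not (s := (univ : Finset W)) (fun e => e ∈ E)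
  have h4 : (univ.filter (fun e => e ∈ E)).card = E.card := by
    congr 1; ext; simp
  rw [h4] at h3
  rw [Finset.card_univ] at h3
  omega

/-- the sums of the pairs of elements are different -/
def Sidon {G : Type*} [AddCommGroup G] (B : Finset G) : Prop :=
  Set.InjOn (fun p : Finset G => ∑ x ∈ p, x) (B.powersetCard 2 : Set (Finset G))

lemma exists_sidon {G : Type*} [AddCommGroup G] [DecidableEq G] (h2 : ∀ x : G, x + x = 0)
    (A : Finset G) : ∀ s, s ^ 3 < A.card + 1 → ∃ B ⊆ A, B.card = s ∧ Sidon B := by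
  intro s
  induction s with
  | zero =>
    intro _
    refine ⟨∅, by simp, rfl, ?_⟩
    intro p hp
    obtain ⟨h1, h3⟩ := Finset.mem_powersetCard.mp (Finset.mem_coe.mp hp)
    have := Finset.card_le_card h1
    rw [h3] at this
    simp at this
  | succ s ih =>
    intro hs
    have hs' : s ^ 3 < A.card := by
      have h1 : s ^ 3 + 1 ≤ (s + 1) ^ 3 := Nat.pow_lt_pow_left (by omega) (by norm_num)
      omega
    obtain ⟨B, hBA, hBc, hB⟩ := ih (by omega)
    set F : Finset G := (B ×ˢ B ×ˢ B).image (fun t => t.1 + t.2.1 + t.2.2) with hF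
    have hFc : F.card ≤ s ^ 3 := by
      refine Finset.card_image_le.trans ?_
      rw [Finset.card_product, Finset.card_product, hBc]
      ring_nf; exact le_rfl
    obtain ⟨x, hxA, hxF⟩ : ∃ x ∈ A, x ∉ F := by
      by_contra hcon
      push Not at hcon
      have := Finset.card_le_card (show A ⊆ F from hcon)
      omega
    have hxB : x ∉ B := by
      intro hx
      apply hxF
      rw [hF]
      refine Finset.mem_image.mpr ⟨(x, x, x), ?_, ?_⟩
      · simp [hx]
      · simp only [h2, zero_add]
    have hF3 : ∀ b ∈ B, ∀ c ∈ B, ∀ d ∈ B, x ≠ b + c + d := by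
      intro b hb c hc d hd e
      apply hxF
      rw [hF]
      exact Finset.mem_image.mpr ⟨(b, c, d), by simp [hb, hc, hd], e.symm⟩
    refine ⟨insert x B, Finset.insert_subset hxA hBA, by rw [Finset.card_insert_of_notMem hxB, hBc],
      ?_⟩
    -- pairs containing x
    have hpair : ∀ p ∈ (insert x B).powersetCard 2, x ∈ p → ∃ b ∈ B, p = {x, b} ∧ x ≠ b := by
      intro p hp hxp
      obtain ⟨hps, hpc⟩ := Finset.mem_powersetCard.mp hp
      have h3 : (p.erase x).card = 1 := by rw [Finset.card_erase_of_mem hxp, hpc]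
      obtain ⟨b, hb⟩ := Finset.card_eq_one.mp h3
      have hbp : b ∈ p.erase x := by rw [hb]; simp
      have hb2 := Finset.mem_erase.mp hbp
      refine ⟨b, ?_, ?_, fun h => hb2.1 h.symm⟩
      · rcases Finset.mem_insert.mp (hps hb2.2) with h | h
        · exact absurd h hb2.1
        · exact h
      · rw [← Finset.insert_erase hxp, hb]
    have hpair' : ∀ p ∈ (insert x B).powersetCard 2, x ∉ p → p ∈ B.powersetCard 2 := by
      intro p hp hxp
      obtain ⟨hps, hpc⟩ := Finset.mem_powersetCard.mp hp
      refine Finset.mem_powersetCard.mpr ⟨fun y hy => ?_, hpc⟩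
      rcases Finset.mem_insert.mp (hps hy) with h | h
      · exact absurd (h ▸ hy) hxp
      · exact h
    have hmix : ∀ b ∈ B, ∀ q ∈ B.powersetCard 2, x + b ≠ ∑ y ∈ q, y := by
      intro b hb q hq e
      obtain ⟨hqs, hqc⟩ := Finset.mem_powersetCard.mp hq
      obtain ⟨c, d, hcd, rfl⟩ := Finset.card_eq_two.mp hqc
      rw [Finset.sum_pair hcd] at e
      apply hF3 c (hqs (by simp)) d (hqs (by simp)) b hb
      rw [← e, add_assoc, h2, add_zero]
    intro p hp q hq hpq
    have hp' := Finset.mem_coe.mp hp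
    have hq' := Finset.mem_coe.mp hq
    simp only at hpq
    by_cases hxp : x ∈ p
    · obtain ⟨b, hb, rfl, hne⟩ := hpair p hp' hxp
      rw [Finset.sum_pair hne] at hpq
      by_cases hxq : x ∈ q
      · obtain ⟨c, hc, rfl, hne'⟩ := hpair q hq' hxq
        rw [Finset.sum_pair hne'] at hpq
        rw [add_left_cancel hpq]
      · exact absurd hpq (hmix b hb q (hpair' q hq' hxq))
    · by_cases hxq : x ∈ q
      · obtain ⟨c, hc, rfl, hne'⟩ := hpair q hq' hxq
        rw [Finset.sum_pair hne'] at hpq
        exact absurd hpq.symm (hmix c hc p (hpair' p hp' hxp))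
      · exact hB (Finset.mem_coe.mpr (hpair' p hp' hxp)) (Finset.mem_coe.mpr (hpair' q hq' hxq)) hpq

/-- **Lower bound.** -/
theorem lower (k r : ℕ) (hr : 2 ≤ r) : ∃ f : (Fin k → ZMod 2) → Fin 2,
    ∀ (A : Finset (Fin k → ZMod 2)) (c : Fin 2),
      (∀ S ⊆ A, S.card = r → f (∑ x ∈ S, x) = c) → A.card < (2 * k + 4) ^ 3 + r := by
  have h2 : ∀ x : Fin k → ZMod 2, x + x = 0 := by
    intro x
    ext i
    simp only [Pi.add_apply, Pi.zero_apply]
    generalize x i = y
    revert y
    decide
  set s := 2 * k + 4 with hs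
  set W := Fin k → ZMod 2 with hW
  have hcW : Fintype.card W = 2 ^ k := by simp [hW, ZMod.card]
  classical
  by_contra hcon
  push Not at hcon
  -- the bad triples
  let T : Finset (W × Finset W × Fin 2) :=
    (univ ×ˢ ((univ : Finset W).powersetCard s) ×ˢ univ).filter (fun t => Sidon t.2.1)
  let E : W × Finset W × Fin 2 → Finset W :=
    fun t => (t.2.1.powersetCard 2).image (fun p => t.1 + ∑ x ∈ p, x)
  have hE : ∀ t ∈ T, (E t).card = s.choose 2 := by
    intro t ht
    obtain ⟨h3, h4⟩ := Finset.mem_filter.mp ht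
    have h5 : t.2.1.card = s := by
      have := (Finset.mem_product.mp (Finset.mem_product.mp h3).2).1
      exact (Finset.mem_powersetCard.mp this).2
    show ((t.2.1.powersetCard 2).image (fun p => t.1 + ∑ x ∈ p, x)).card = _
    rw [Finset.card_image_of_injOn, Finset.card_powersetCard, h5]
    intro p hp q hq hpq
    exact h4 hp hq (add_left_cancel hpq)
  have hcover : (univ : Finset (W → Fin 2)) ⊆
      T.biUnion (fun t => univ.filter (fun f => ∀ e ∈ E t, f e = t.2.2)) := by
    intro f _
    obtain ⟨A, c, hA, hAc⟩ := hcon f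
    obtain ⟨R, hRA, hRc⟩ := Finset.exists_subset_card_eq (by omega : r - 2 ≤ A.card)
    have hA' : (A \ R).card = A.card - (r - 2) := by
      rw [Finset.card_sdiff_of_subset hRA, hRc]
    obtain ⟨B, hBA, hBc, hB⟩ := exists_sidon h2 (A \ R) s (by omega)
    refine Finset.mem_biUnion.mpr ⟨(∑ x ∈ R, x, B, c), ?_, ?_⟩
    · refine Finset.mem_filter.mpr ⟨?_, hB⟩
      simp only [Finset.mem_product, Finset.mem_univ, true_and, and_true]
      exact Finset.mem_powersetCard.mpr ⟨Finset.subset_univ _, hBc⟩
    · refine Finset.mem_filter.mpr ⟨Finset.mem_univ _, fun e he => ?_⟩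
      obtain ⟨p, hp, rfl⟩ := Finset.mem_image.mp he
      obtain ⟨hps, hpc⟩ := Finset.mem_powersetCard.mp hp
      have hdisj : Disjoint R p := by
        rw [Finset.disjoint_left]
        intro y hy hy'
        exact (Finset.mem_sdiff.mp (hBA (hps hy'))).2 hy
      have := hA (R ∪ p) (Finset.union_subset hRA
        (fun y hy => (Finset.mem_sdiff.mp (hBA (hps hy))).1)) (by
          rw [Finset.card_union_of_disjoint hdisj, hRc, hpc]; omega)
      rw [Finset.sum_union hdisj] at this
      exact this
  have h3 := (Finset.card_le_card hcover).trans Finset.card_biUnion_le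
  have h4 : ∑ t ∈ T, (univ.filter (fun f : W → Fin 2 => ∀ e ∈ E t, f e = t.2.2)).card
      = T.card * 2 ^ (2 ^ k - s.choose 2) := by
    rw [Finset.sum_congr rfl (g := fun _ => 2 ^ (2 ^ k - s.choose 2)), Finset.sum_const,
      smul_eq_mul]
    intro t ht
    rw [card_const, hE t ht, hcW]
  rw [h4] at h3
  have h5 : (univ : Finset (W → Fin 2)).card = 2 ^ (2 ^ k) := by
    rw [Finset.card_univ, Fintype.card_fun, hcW]; simp
  rw [h5] at h3
  have h6 : T.card ≤ 2 ^ (k * (s + 1) + 1) := by
    refine (Finset.card_filter_le _ _).trans ?_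
    rw [Finset.card_product, Finset.card_product, Finset.card_powersetCard, Finset.card_univ,
      Finset.card_univ, hcW]
    calc 2 ^ k * ((2 ^ k).choose s * Fintype.card (Fin 2)) ≤ 2 ^ k * ((2 ^ k) ^ s * 2) := by
          apply Nat.mul_le_mul_left
          apply Nat.mul_le_mul (Nat.choose_le_pow _ _) (by simp)
      _ = 2 ^ (k * (s + 1) + 1) := by rw [← pow_mul]; ring
  have hTne : 0 < T.card := by
    by_contra h0
    have : T.card = 0 := by omega
    rw [this] at h3
    simp at h3
  obtain ⟨t, ht⟩ := Finset.card_pos.mp hTne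
  have h7 : s.choose 2 ≤ 2 ^ k := by
    rw [← hE t ht, ← hcW]
    exact Finset.card_le_univ _
  have h8 : k * (s + 1) + 1 < s.choose 2 := by
    rw [hs, Nat.choose_two_right]
    have : (2 * k + 4) * (2 * k + 4 - 1) = 2 * ((k + 2) * (2 * k + 3)) := by
      rw [show 2 * k + 4 - 1 = 2 * k + 3 by omega]; ring
    rw [this, Nat.mul_div_cancel_left _ (by norm_num)]
    nlinarith
  have h9 : T.card * 2 ^ (2 ^ k - s.choose 2) < 2 ^ (2 ^ k) := by
    calc T.card * 2 ^ (2 ^ k - s.choose 2) ≤ 2 ^ (k * (s + 1) + 1) * 2 ^ (2 ^ k - s.choose 2) :=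
          Nat.mul_le_mul_right _ h6
      _ = 2 ^ (k * (s + 1) + 1 + (2 ^ k - s.choose 2)) := (pow_add _ _ _).symm
      _ < 2 ^ (2 ^ k) := Nat.pow_lt_pow_right (by norm_num) (by omega)
  omega

end Pool.Agent.R604.SC
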